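import Mathlib
import Pool.Agent.H921GH.Main
import Pool.Agent.W826.GHB.Top
import Pool.Agent.W826.GHB.Radius

/-!
# Ball versus sphere: the Gromov-Hausdorff distance stays away from `1/2` as the dimension grows

`D m = d_GH(B^{m+1}, S^m)` (Euclidean metrics) satisfies `D m ≥ 2 (√2 - 1)^{3/2} = 0.5331...` for all
`m ≥ 1`; so the limit of `D m` as `m → ∞` exists and lies in `[0.5331, 0.6522]`.
-/

set_option autoImplicit false

namespace Pool.Agent.Results.MP_431f4e_gt.AboveHalf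

open Metric GromovHausdorff Filter
open scoped Topology

/-- The unit sphere of `ℝ^{m+1}` is not empty (it contains the first basis vector). -/
instance instNonemptySphere (m : ℕ) :
    Nonempty (sphere (0 : EuclideanSpace ℝ (Fin (m + 1))) 1) :=
  ⟨⟨EuclideanSpace.single 0 1, by simp⟩⟩

/-- `D m = d_GH(B^{m+1}, S^m)`: the Gromov-Hausdorff distance between the closed unit ball of
`ℝ^{m+1}` and the unit sphere of `ℝ^{m+1}`, both with the Euclidean metric. -/
noncomputable def D (m : ℕ) : ℝ :=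
  ghDist (closedBall (0 : EuclideanSpace ℝ (Fin (m + 1))) 1)
    (sphere (0 : EuclideanSpace ℝ (Fin (m + 1))) 1)

theorem half_le (m : ℕ) (hm : 1 ≤ m) : 1 / 2 ≤ D m := by
  have h := W826.GHB.gh_lower (n := m + 1) (by omega)
  refine le_trans ?_ h
  apply one_div_le_one_div_of_le (by positivity)
  have : √((((m + 1 : ℕ) : ℝ) - 1) / (((m + 1 : ℕ) : ℝ) + 1)) ≤ 1 := by
    apply Real.sqrt_le_iff.2
    refine ⟨zero_le_one, ?_⟩
    rw [one_pow, div_le_one (by positivity)]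
    linarith
  linarith

theorem step (m : ℕ) (hm : 1 ≤ m) : D (m + 1) ≤ D m :=
  W826.GHB.mono_step (m + 1) (half_le m hm)

theorem D_le (m : ℕ) (hm : 1 ≤ m) : D m ≤ 1 - H921GH.s := by
  induction m, hm using Nat.le_induction with
  | base => exact (H921GH.ghDist_plane : D 1 = 1 - H921GH.s).le
  | succ m hm ih => exact (step m hm).trans ih

theorem D_nonneg (m : ℕ) (hm : 1 ≤ m) : 0 ≤ D m := le_trans (by norm_num) (half_le m hm)

theorem radius (m : ℕ) (hm : 1 ≤ m) : 4 ≤ D m ^ 2 * (1 + √2) ^ 3 := by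
  have h1 : D m < 2 / 3 := by
    have := D_le m hm
    have := H921GH.s_gt
    linarith
  exact W826.GHB.gh_radius (n := m + 1) h1

theorem sq_bound (m : ℕ) (hm : 1 ≤ m) : √(20 * √2 - 28) ≤ D m := by
  apply Real.sqrt_le_iff.2
  refine ⟨D_nonneg m hm, ?_⟩
  have h := radius m hm
  have hw : √2 ^ 2 = 2 := Real.sq_sqrt (by norm_num)
  have hw1 : 1 < √2 := by
    rw [Real.lt_sqrt (by norm_num)]; norm_num
  have h3 : 0 < (√2 - 1) ^ 3 := by
    have : 0 < √2 - 1 := by linarith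
    positivity
  have h4 : (1 + √2) ^ 3 * (√2 - 1) ^ 3 = 1 := by
    rw [← mul_pow]
    have : (1 + √2) * (√2 - 1) = 1 := by nlinarith only [hw]
    rw [this, one_pow]
  have h5 : 4 * (√2 - 1) ^ 3 ≤ D m ^ 2 := by
    have := mul_le_mul_of_nonneg_right h h3.le
    calc 4 * (√2 - 1) ^ 3 ≤ D m ^ 2 * (1 + √2) ^ 3 * (√2 - 1) ^ 3 := this
      _ = D m ^ 2 * ((1 + √2) ^ 3 * (√2 - 1) ^ 3) := by ring
      _ = D m ^ 2 := by rw [h4, mul_one]
  have h6 : 4 * (√2 - 1) ^ 3 = 20 * √2 - 28 := by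
    have : (√2 - 1) ^ 3 = √2 * √2 ^ 2 - 3 * √2 ^ 2 + 3 * √2 - 1 := by ring
    rw [this, hw]; ring
  linarith

theorem num : (0.5331 : ℝ) < √(20 * √2 - 28) := by
  have h1 : (1.41421 : ℝ) < √2 := by
    rw [Real.lt_sqrt (by norm_num)]; norm_num
  rw [Real.lt_sqrt (by norm_num)]
  linarith

/-- For every `m ≥ 1`, `d_GH(B^{m+1}, S^m) ≥ √(20 √2 - 28) = 2 (√2 - 1)^{3/2} > 0.5331`, and the
limit of `d_GH(B^{m+1}, S^m)` as `m → ∞` exists and lies between this number and `0.6522`. -/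
theorem result :
    (∀ m : ℕ, 1 ≤ m → √(20 * √2 - 28) ≤ D m) ∧ 0.5331 < √(20 * √2 - 28) ∧
      ∃ L : ℝ, √(20 * √2 - 28) ≤ L ∧ L ≤ 0.6522 ∧ Tendsto D atTop (𝓝 L) := by
  have hanti : Antitone fun m => D (m + 1) := antitone_nat_of_succ_le fun m => step (m + 1) (by omega)
  have hge : ∀ m, √(20 * √2 - 28) ≤ D (m + 1) := fun m => sq_bound (m + 1) (by omega)
  have hlim : Tendsto (fun m => D (m + 1)) atTop (𝓝 (⨅ m, D (m + 1))) := by
    apply tendsto_atTop_ciInf hanti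
    exact ⟨√(20 * √2 - 28), by rintro _ ⟨m, rfl⟩; exact hge m⟩
  refine ⟨sq_bound, num, ⨅ m, D (m + 1), ?_, ?_, (tendsto_add_atTop_iff_nat 1).1 hlim⟩
  · exact ge_of_tendsto' hlim hge
  · refine le_of_tendsto' hlim fun m => ?_
    have := D_le (m + 1) (by omega)
    have := H921GH.s_gt
    linarith

end Pool.Agent.Results.MP_431f4e_gt.AboveHalf
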