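import Mathlib
import Pool.Agent.H921GH.Main
import Pool.Agent.W826.GHB.Top

/-!
# The Gromov-Hausdorff distance between the unit ball `B^{m+1}` and its boundary sphere `S^m`

Both carry the Euclidean metric.  Write `D m = d_GH(B^{m+1}, S^m)`.  We prove, for all `m ≥ 1`:
`D` is nonincreasing in the dimension, `D m ≥ 1 / (1 + √(m / (m + 2))) > 1 / 2` together with a
sharper polynomial inequality (an equality for `m = 1`), and `D m ≤ 1 - s = 0.6521...`.
-/

set_option autoImplicit false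

namespace Pool.Agent.Results.MP_431f4e_gt.AllDims

open Metric GromovHausdorff Filter
open scoped Topology

/-- The unit sphere of `ℝ^{m+1}` is not empty (it contains the first basis vector). -/
instance instNonemptySphere (m : ℕ) :
    Nonempty (sphere (0 : EuclideanSpace ℝ (Fin (m + 1))) 1) :=
  ⟨⟨EuclideanSpace.single 0 1, by simp⟩⟩

/-- `D m = d_GH(B^{m+1}, S^m)`: the Gromov-Hausdorff distance between the closed unit ball of
`ℝ^{m+1}` and the unit sphere of `ℝ^{m+1}`, both with the Euclidean metric. -/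
noncomputable def D (m : ℕ) : ℝ :=
  ghDist (closedBall (0 : EuclideanSpace ℝ (Fin (m + 1))) 1)
    (sphere (0 : EuclideanSpace ℝ (Fin (m + 1))) 1)

theorem lower (m : ℕ) (hm : 1 ≤ m) : 1 / (1 + √((m : ℝ) / (m + 2))) ≤ D m := by
  have h := W826.GHB.gh_lower (n := m + 1) (by omega)
  have e : (((m + 1 : ℕ) : ℝ) - 1) / (((m + 1 : ℕ) : ℝ) + 1) = (m : ℝ) / (m + 2) := by
    push_cast; ring
  rw [e] at h
  exact h

theorem half_lt (m : ℕ) : 1 / 2 < 1 / (1 + √((m : ℝ) / (m + 2))) := by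
  apply one_div_lt_one_div_of_lt (by positivity)
  have : √((m : ℝ) / (m + 2)) < 1 := by
    rw [Real.sqrt_lt' one_pos, one_pow, div_lt_one (by positivity)]
    linarith
  linarith

theorem step (m : ℕ) (hm : 1 ≤ m) : D (m + 1) ≤ D m :=
  W826.GHB.mono_step (m + 1) ((half_lt m).le.trans (lower m hm))

theorem D_one : D 1 = 1 - H921GH.s := H921GH.ghDist_plane

theorem D_le (m : ℕ) (hm : 1 ≤ m) : D m ≤ 1 - H921GH.s := by
  induction m, hm using Nat.le_induction with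
  | base => exact D_one.le
  | succ m hm ih => exact (step m hm).trans ih

theorem poly (m : ℕ) (hm : 1 ≤ m) :
    D m * ((m + 2) - 2 * (m + 1) * D m ^ 2) ≤
      4 * (((m + 2) ^ 2 / 4 : ℕ) : ℝ) * ((1 - D m) * (2 * D m - 1)) := by
  have h1 : D m < 2 / 3 := by
    have := D_le m hm
    have := H921GH.s_gt
    linarith
  have h := W826.GHB.gh_poly (n := m + 1) h1
  have e1 : (((m + 1 : ℕ) : ℝ)) + 1 = (m : ℝ) + 2 := by push_cast; ring
  have e2 : (((m + 1 : ℕ) : ℝ)) = (m : ℝ) + 1 := by push_cast; ring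
  rw [e1, e2] at h
  exact h

/-- For all `m ≥ 1`, with `D m = d_GH(B^{m+1}, S^m)` (Euclidean metrics): the sequence `D` is
nonincreasing, `1/2 < 1 / (1 + √(m / (m + 2))) ≤ D m ≤ 1 - s = 0.6521...` where `s` is the positive
root of `4 s³ + 4 s² + s = 1`, `D m` satisfies the polynomial inequality (sharp for `m = 1`)
`D (m + 2 - 2 (m + 1) D²) ≤ 4 ⌊(m + 2)² / 4⌋ (1 - D) (2 D - 1)`, and `D m` converges to a limit in
`[1/2, 1 - s]`. -/
theorem result :
    (∀ m : ℕ, 1 ≤ m → D (m + 1) ≤ D m) ∧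
    (∀ m : ℕ, 1 ≤ m → 1 / 2 < 1 / (1 + √((m : ℝ) / (m + 2))) ∧
      1 / (1 + √((m : ℝ) / (m + 2))) ≤ D m) ∧
    (∀ m : ℕ, 1 ≤ m → D m * ((m + 2) - 2 * (m + 1) * D m ^ 2) ≤
      4 * (((m + 2) ^ 2 / 4 : ℕ) : ℝ) * ((1 - D m) * (2 * D m - 1))) ∧
    ∃ s : ℝ, 0.3478 < s ∧ s < 0.34782 ∧ 4 * s ^ 3 + 4 * s ^ 2 + s = 1 ∧
      (∀ m : ℕ, 1 ≤ m → D m ≤ 1 - s) ∧
      ∃ L : ℝ, 1 / 2 ≤ L ∧ L ≤ 1 - s ∧ Tendsto D atTop (𝓝 L) := by
  refine ⟨step, fun m hm => ⟨half_lt m, lower m hm⟩, poly, H921GH.s, H921GH.s_gt, H921GH.s_lt,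
    H921GH.s_eq, D_le, ?_⟩
  have hanti : Antitone fun m => D (m + 1) := antitone_nat_of_succ_le fun m => step (m + 1) (by omega)
  have hge : ∀ m, 1 / 2 ≤ D (m + 1) := fun m =>
    (half_lt (m + 1)).le.trans (lower (m + 1) (by omega))
  have hlim : Tendsto (fun m => D (m + 1)) atTop (𝓝 (⨅ m, D (m + 1))) := by
    apply tendsto_atTop_ciInf hanti
    exact ⟨1 / 2, by rintro _ ⟨m, rfl⟩; exact hge m⟩
  refine ⟨⨅ m, D (m + 1), ?_, ?_, (tendsto_add_atTop_iff_nat 1).1 hlim⟩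
  · exact ge_of_tendsto' hlim hge
  · exact le_of_tendsto' hlim fun m => D_le (m + 1) (by omega)

end Pool.Agent.Results.MP_431f4e_gt.AllDims
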